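import Pool.Agent.Run7.h723.OG.Iface

set_option autoImplicit false

namespace Run7.h229.OG

open Pool.H723.OG Finset

theorem sum_prod {V : Type} [Fintype V] [DecidableEq V] (f : V → Fin 4 → ℝ) :
    ∑ χ : V → Fin 4, ∏ u, f u (χ u) = ∏ u, ∑ c, f u c := by
  rw [Finset.prod_univ_sum, Fintype.piFinset_univ]

open Classical in
theorem t_AVG : S_AVG := by
  intro V _ _ G
  set n := Fintype.card V with hn
  set D : (V → Fin 4) → Finset V := fun χ => univ.filter (fun u => χ u = 0) with hD
  have hcost : ∀ χ, (cost2 G (D χ) : ℝ) / 2 ≤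
      ∑ v, ((if χ v = 0 then (1 : ℝ) else 0) + (1 / 2 : ℝ) ^ (nb G (D χ) v)) := by
    intro χ
    have h1 : ((D χ).card : ℝ) = ∑ v, (if χ v = 0 then (1 : ℝ) else 0) := by
      rw [hD]
      simp only
      rw [Finset.card_filter]
      push_cast
      rfl
    have h2 : ((lev G (D χ) 0).card : ℝ) + ((lev G (D χ) 1).card : ℝ) / 2 ≤
        ∑ v, (1 / 2 : ℝ) ^ (nb G (D χ) v) := by
      unfold lev
      rw [Finset.card_filter, Finset.card_filter]
      push_cast
      rw [Finset.sum_div, ← Finset.sum_add_distrib]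
      apply Finset.sum_le_sum
      intro v _
      by_cases h0 : v ∉ D χ ∧ nb G (D χ) v = 0
      · have : ¬ (v ∉ D χ ∧ nb G (D χ) v = 1) := by
          rintro ⟨-, h⟩
          omega
        rw [if_pos h0, if_neg this, h0.2]
        norm_num
      · rw [if_neg h0]
        by_cases h3 : v ∉ D χ ∧ nb G (D χ) v = 1
        · rw [if_pos h3, h3.2]
          norm_num
        · rw [if_neg h3]
          have : (0 : ℝ) ≤ (1 / 2 : ℝ) ^ (nb G (D χ) v) := by positivity
          linarith
    unfold cost2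
    push_cast
    rw [Finset.sum_add_distrib, ← h1]
    linarith
  have hs1 : ∀ v : V, ∑ χ : V → Fin 4, (if χ v = 0 then (1 : ℝ) else 0) = 4 ^ n / 4 := by
    intro v
    have e : ∀ χ : V → Fin 4, (if χ v = 0 then (1 : ℝ) else 0) =
        ∏ u, (fun (u : V) (c : Fin 4) => if u = v then (if c = 0 then (1 : ℝ) else 0) else 1)
          u (χ u) := by
      intro χ
      simp only
      rw [Finset.prod_ite_eq' univ v (fun u => if χ u = 0 then (1 : ℝ) else 0)]
      simp
    rw [Finset.sum_congr rfl (fun χ _ => e χ)]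
    rw [sum_prod (fun (u : V) (c : Fin 4) => if u = v then (if c = 0 then (1 : ℝ) else 0) else 1)]
    have e2 : ∀ u : V, ∑ c : Fin 4, (fun (u : V) (c : Fin 4) => if u = v then
        (if c = 0 then (1 : ℝ) else 0) else 1) u c = 4 * (if u = v then 1 / 4 else 1) := by
      intro u
      by_cases h : u = v
      · simp [h]
      · simp [h]
    rw [Finset.prod_congr rfl (fun u _ => e2 u), Finset.prod_mul_distrib, Finset.prod_const, Finset.card_univ]
    rw [Finset.prod_ite_eq' univ v (fun _ => (1 / 4 : ℝ))]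
    simp [hn]
    ring
  have hs2 : ∀ v : V, ∑ χ : V → Fin 4, (1 / 2 : ℝ) ^ (nb G (D χ) v) =
      4 ^ n * (7 / 8 : ℝ) ^ (dg G v) := by
    intro v
    have e : ∀ χ : V → Fin 4, (1 / 2 : ℝ) ^ (nb G (D χ) v) =
        ∏ u, (fun (u : V) (c : Fin 4) => if G.Adj u v then (if c = 0 then (1 / 2 : ℝ) else 1)
          else 1) u (χ u) := by
      intro χ
      simp only
      unfold nb
      rw [← Finset.prod_const, Finset.prod_filter, hD]
      simp only
      rw [Finset.prod_filter]
      apply Finset.prod_congr rfl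
      intro u _
      by_cases h : G.Adj u v <;> by_cases h' : χ u = 0 <;> simp [h, h']
    rw [Finset.sum_congr rfl (fun χ _ => e χ)]
    rw [sum_prod (fun (u : V) (c : Fin 4) => if G.Adj u v then (if c = 0 then (1 / 2 : ℝ) else 1) else 1)]
    have e2 : ∀ u : V, ∑ c : Fin 4, (fun (u : V) (c : Fin 4) => if G.Adj u v then
        (if c = 0 then (1 / 2 : ℝ) else 1) else 1) u c = 4 * (if G.Adj u v then 7 / 8 else 1) := by
      intro u
      by_cases h : G.Adj u v
      · simp only [h, if_true]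
        simp [Fin.sum_univ_four]
        norm_num
      · simp [h]
    rw [Finset.prod_congr rfl (fun u _ => e2 u), Finset.prod_mul_distrib, Finset.prod_const, Finset.card_univ, ← Finset.prod_filter,
      Finset.prod_const]
    rfl
  have hcard : (univ : Finset (V → Fin 4)).card = 4 ^ n := by
    simp [hn]
  have hne : (univ : Finset (V → Fin 4)).Nonempty := ⟨fun _ => 0, mem_univ _⟩
  obtain ⟨χ, -, hχ⟩ := Finset.exists_le_of_sum_le hne
    (f := fun χ => (cost2 G (D χ) : ℝ) / 2)
    (g := fun _ => (n : ℝ) / 4 + ∑ v, (7 / 8 : ℝ) ^ (dg G v)) (by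
      calc ∑ χ : V → Fin 4, (cost2 G (D χ) : ℝ) / 2
          ≤ ∑ χ : V → Fin 4, ∑ v, ((if χ v = 0 then (1 : ℝ) else 0) +
            (1 / 2 : ℝ) ^ (nb G (D χ) v)) := Finset.sum_le_sum (fun χ _ => hcost χ)
        _ = ∑ v, ∑ χ : V → Fin 4, ((if χ v = 0 then (1 : ℝ) else 0) +
            (1 / 2 : ℝ) ^ (nb G (D χ) v)) := Finset.sum_comm
        _ = ∑ v : V, ((4 : ℝ) ^ n / 4 + 4 ^ n * (7 / 8 : ℝ) ^ (dg G v)) := by
            apply Finset.sum_congr rfl
            intro v _
            rw [Finset.sum_add_distrib, hs1 v, hs2 v]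
        _ = 4 ^ n * ((n : ℝ) / 4 + ∑ v, (7 / 8 : ℝ) ^ (dg G v)) := by
            rw [Finset.sum_add_distrib, ← Finset.mul_sum, Finset.sum_const, Finset.card_univ,
              nsmul_eq_mul, ← hn]
            ring
        _ = ∑ _χ : V → Fin 4, ((n : ℝ) / 4 + ∑ v, (7 / 8 : ℝ) ^ (dg G v)) := by
            rw [Finset.sum_const, hcard, nsmul_eq_mul]
            push_cast
            ring
        _ ≤ _ := le_refl _)
  exact ⟨D χ, hχ⟩

end Run7.h229.OG
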