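import Pool.Agent.Run7.h723.OG.Iface

set_option autoImplicit false

namespace Run7.h229.OG

open Pool.H723.OG Finset

open Classical in
theorem nb_add {V : Type} [Fintype V] [DecidableEq V] (G : SimpleGraph V) (A : Finset V) (v : V) :
    nb G A v + nb G Aᶜ v = dg G v := by
  unfold nb dg
  rw [← Finset.card_union_of_disjoint]
  · congr 1
    ext u
    simp only [mem_union, mem_filter, mem_compl, mem_univ, true_and]
    tauto
  · rw [Finset.disjoint_left]
    intro u hu hu'
    simp only [mem_filter, mem_compl] at hu hu'
    exact hu'.1 hu.1

open Classical in
theorem t_CUT : S_CUT := by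
  intro V _ _ G
  set a : V → V → ℤ := fun x y => if G.Adj x y then 1 else 0 with ha
  set s : Finset V → V → ℤ := fun A x => if x ∈ A then 1 else -1 with hs
  set g : Finset V → ℤ := fun A => ∑ x, ∑ y, s A x * s A y * a x y with hg
  obtain ⟨A, -, hA⟩ := Finset.exists_min_image (univ : Finset (Finset V)) g ⟨∅, mem_univ _⟩
  have asymm : ∀ x y, a x y = a y x := by
    intro x y
    simp only [ha, G.adj_comm]
  have key : ∀ v, s A v * ∑ y, s A y * a v y ≤ 0 := by
    intro v
    set t := s A v with ht
    have htt : t * t = 1 := by
      simp only [ht, hs]; split_ifs <;> norm_num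
    set A' : Finset V := symmDiff A {v} with hA'
    have hs' : ∀ x, s A' x = s A x - 2 * t * (if x = v then 1 else 0) := by
      intro x
      by_cases hx : x = v
      · subst hx
        simp only [hs, hA', ht, mem_symmDiff, mem_singleton]
        by_cases h : x ∈ A <;> simp [h]
      · simp only [hs, hA', mem_symmDiff, mem_singleton]
        by_cases h : x ∈ A <;> simp [h, hx]
    have hgA' : g A' = g A - 4 * (t * ∑ y, s A y * a v y) := by
      simp only [hg, hs']
      have h1 : ∀ x y, (s A x - 2 * t * (if x = v then 1 else 0)) *
          (s A y - 2 * t * (if y = v then 1 else 0)) * a x y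
          = s A x * s A y * a x y - (if x = v then 2 * t * (s A y * a v y) else 0)
            - (if y = v then 2 * t * (s A x * a v x) else 0) := by
        intro x y
        by_cases hx : x = v
        · by_cases hy : y = v
          · subst hx
            subst hy
            have : a y y = 0 := by simp [ha]
            simp [this]
          · subst hx
            simp [hy]
            ring
        · by_cases hy : y = v
          · subst hy
            simp [hx]
            rw [asymm x y]
            ring
          · simp [hx, hy]
      simp only [h1, sum_sub_distrib]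
      have h2 : ∑ x : V, ∑ y : V, (if x = v then 2 * t * (s A y * a v y) else 0)
          = 2 * t * ∑ y, s A y * a v y := by
        rw [Finset.sum_comm]
        simp [Finset.mul_sum]
      have h3 : ∑ x : V, ∑ y : V, (if y = v then 2 * t * (s A x * a v x) else 0)
          = 2 * t * ∑ y, s A y * a v y := by
        simp [Finset.mul_sum]
      rw [h2, h3]
      ring
    have := hA A' (mem_univ _)
    rw [hgA'] at this
    linarith
  have hsum : ∀ v, ∑ y, s A y * a v y = (nb G A v : ℤ) - nb G Aᶜ v := by
    intro v
    have h1 : ∀ y, s A y * a v y = (if y ∈ A ∧ G.Adj y v then 1 else 0) -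
        (if y ∈ Aᶜ ∧ G.Adj y v then 1 else 0) := by
      intro y
      simp only [hs, ha, mem_compl, G.adj_comm v y]
      by_cases h : y ∈ A <;> by_cases h' : G.Adj y v <;> simp [h, h']
    simp only [h1, sum_sub_distrib]
    unfold nb
    rw [Finset.card_filter, Finset.card_filter]
    push_cast
    congr 1
    · rw [← Finset.sum_filter, ← Finset.sum_filter]
      apply Finset.sum_congr
      · ext u; simp
      · intros; rfl
    · rw [← Finset.sum_filter, ← Finset.sum_filter]
      apply Finset.sum_congr
      · ext u; simp
      · intros; rfl
  refine ⟨A, ?_, ?_⟩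
  · intro v hv
    have h := key v
    rw [hsum v] at h
    have h1 : s A v = -1 := by simp [hs, hv]
    rw [h1] at h
    have := nb_add G A v
    omega
  · intro v hv
    have h := key v
    rw [hsum v] at h
    have h1 : s A v = 1 := by simp [hs, hv]
    rw [h1] at h
    have := nb_add G A v
    omega

end Run7.h229.OG
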