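import Pool.Agent.Run7.h723.OG.Iface

set_option autoImplicit false

namespace Run7.h229.OG

open Pool.H723.OG Finset

open Classical in
theorem t_HALF (hC : S_COST) (hU : S_CUT) : S_HALF := by
  intro V _ _ G hG
  obtain ⟨A, h1, h2⟩ := hU V G
  have hpos : ∀ v, 0 < dg G v := by
    intro v
    obtain ⟨u, hu⟩ := hG v
    unfold dg
    rw [Finset.card_pos]
    exact ⟨u, by simp [hu.symm]⟩
  have e1 : lev G A 0 = ∅ := by
    rw [Finset.eq_empty_iff_forall_notMem]
    intro v hv
    unfold lev at hv
    simp only [mem_filter, mem_univ, true_and] at hv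
    have := h1 v hv.1
    have := hpos v
    omega
  have e2 : lev G Aᶜ 0 = ∅ := by
    rw [Finset.eq_empty_iff_forall_notMem]
    intro v hv
    unfold lev at hv
    simp only [mem_filter, mem_univ, true_and, mem_compl, not_not] at hv
    have := h2 v hv.1
    have := hpos v
    omega
  have e3 : (lev G A 1).card + (lev G Aᶜ 1).card ≤ (low G 2).card := by
    rw [← Finset.card_union_of_disjoint]
    · apply Finset.card_le_card
      intro v hv
      unfold lev at hv
      unfold low
      simp only [mem_union, mem_filter, mem_univ, true_and, mem_compl, not_not] at hv ⊢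
      rcases hv with hv | hv
      · have := h1 v hv.1
        omega
      · have := h2 v hv.1
        omega
    · rw [Finset.disjoint_left]
      intro u hu hu'
      unfold lev at hu hu'
      simp only [mem_filter, mem_univ, true_and, mem_compl, not_not] at hu hu'
      exact hu.1 hu'.1
  have e4 : A.card + Aᶜ.card = Fintype.card V := Finset.card_add_card_compl A
  have e5 : cost2 G A + cost2 G Aᶜ ≤ 2 * Fintype.card V + (low G 2).card := by
    unfold cost2
    rw [e1, e2]
    simp only [Finset.card_empty]
    omega
  rcases le_total (cost2 G A) (cost2 G Aᶜ) with h | h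
  · refine ⟨cost2 G A / 2, hC V G A _ (by omega), by omega⟩
  · refine ⟨cost2 G Aᶜ / 2, hC V G Aᶜ _ (by omega), by omega⟩

end Run7.h229.OG
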